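import Mathlib
import Pool.Agent.HJI.Defs
import Pool.Agent.HJIfg.Final

set_option autoImplicit false

/-!
# Finitely generated amenable hereditarily just-infinite groups that are not elementary amenable

Answer to Q1 of MP_ae5711_al: such groups exist, and they can be taken to be finitely generated.
The definitions of the statement are in `Pool.Agent.HJI.Defs`.

Sketch. Let `B` be the alternating group of degree five.

* A stage `S` consists of a finite group `H` acting faithfully and transitively on a finite set
  `Om`, a normal subgroup `N` of `H` that is still transitive, an `H`-invariant reflexive and
  symmetric relation (`near`) on `Om` and some combinatorial data. It gives a finitely generated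
  group `G(S)` (generated by `B` and `H`, where `B` commutes with the stabiliser of the base point
  `o` and with its conjugates by the `h` with `h o` near `o` and different from `o`) and a
  surjection of `G(S)` to the finite group `X(S) = B ^ Om : H`.
* Given `S`, let `V` be the lattice spanned over the edges `(w, w')` of a fixed orbital of `H` by
  the tensors of two sum-zero vectors of `Z^5`. The group `X(S)` acts on `V` by permutations of the
  coordinates, so the sup-norm balls `R_m` of `V` are invariant. For `m` large there is a surjection
  of `G(S)` to the group `G'_m` generated by `B` and `V : X(S)`, in which `B` commutes with `X(S)`
  and with its conjugates by the nonzero elements of `R_m`: a generator `b` goes to the product of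
  the conjugate of `b` by a suitable vector `p` and of the conjugate of `b` in `B ^ Om` by the
  vector `f`.
  Reducing `V` modulo a large integer `l` gives the next stage.
* If an element `x` of `G(S)` has nontrivial image in `X(S)`, a subgroup of `G'_m` that contains
  the image of `x` and is normalised by the kernel of `G'_m -> H / N` contains the kernel of
  `G'_m -> V : X(S)`, as soon as `m` is large with respect to `x`. If `m` is large with respect to
  a finite subset of `G(S)` and to `eps`, the image of that finite set has an `eps`-Folner set in
  `G'_m`: the (finite) subgroup generated by the conjugates of `B` over `R_(k+c)`, times `R_k`,
  times `X(S)`, with `k` large and `m` much larger than `k`.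
* The limit of the tower, that is, the image of the first group in the product of the groups
  `X(S_n)`, is finitely generated, residually finite, amenable and hereditarily just-infinite.
  Every subgroup of it that is not trivial and is normalised by a subgroup of finite index has
  finite index and is not abelian. A finitely generated infinite elementary amenable group has a
  subgroup of finite index that maps onto `Z` (proved here by an induction over the elementary
  amenable class), so the limit is not elementary amenable.
-/

namespace Pool.Agent.Results.MP_ae5711_al.FgAmenableHJI

open Pool.Agent.HJI

/-- There is a finitely generated amenable hereditarily just-infinite group that is not elementary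
amenable. -/
theorem result : ∃ (G : Type) (_ : Group G), Group.FG G ∧ Amenable G ∧
    HereditarilyJustInfinite G ∧ ¬ ElementaryAmenable G :=
  Pool.Agent.HJIfg.exists_fg_amenable_hji

end Pool.Agent.Results.MP_ae5711_al.FgAmenableHJI
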